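import Pool.Agent.Y379.KS.Toric
import Pool.Agent.W602.GT.Lam

/-!
Covers of closures of orbits have Zariski dense entire curves (task KS5 of the project on covers of
subvarieties of tori).
-/

set_option autoImplicit false

namespace Pool.Agent.Y379.KS

open MvPolynomial FF Pool.Agent.Y192.OG Pool.Agent.Y192.KC Pool.Agent.W602.GT Pool.Agent.W603.BP

section injective

variable {L : Type} [Field L] [Algebra ℂ L] {δ : ℕ}

theorem ep_inj (σ : Fin δ → Lˣ) (hσ : AlgebraicIndependent ℂ (fun k => (σ k : L))) (g : Lau δ)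
    (h : ep σ g = 0) : g = 0 := by
  obtain ⟨k, hk⟩ := exists_laur g
  obtain ⟨f, -, hfg⟩ := hk k k le_rfl le_rfl
  have h1 : laur f = aeval (fun k => (AddMonoidAlgebra.single (Pi.single k 1) (1 : ℂ) : Lau δ))
      (aeval (Fin.cons (α := fun _ => MvPolynomial (Fin δ) ℂ) 1 (fun i => MvPolynomial.X i)) f) := by
    unfold laur
    rw [← AlgHom.comp_apply, comp_aeval]
    congr 2
    funext i
    refine Fin.cases ?_ (fun i => ?_) i
    · rw [Fin.cons_zero, Fin.cons_zero, map_one]
    · rw [Fin.cons_succ, Fin.cons_succ, aeval_X]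
  have h2 : ep σ (laur f) = 0 := by rw [hfg, map_mul, h, mul_zero]
  rw [h1, ep_poly] at h2
  have h3 := (algebraicIndependent_iff.mp hσ) _ h2
  rw [h3, map_zero] at h1
  rw [h1] at hfg
  have h4 : AddMonoidAlgebra.single (-fun _ => (k : ℤ)) (1 : ℂ) *
      (AddMonoidAlgebra.single (fun _ => (k : ℤ)) 1 * g) = g := by
    rw [← mul_assoc, AddMonoidAlgebra.single_mul_single, neg_add_cancel, one_mul]
    change 1 * g = g
    rw [one_mul]
  rw [← h4, ← hfg, mul_zero]

end injective

section expo

variable {δ : ℕ}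

theorem lam_int (lam : Fin δ → ℂ)
    (hlam : ∀ a b : Fin δ →₀ ℕ, ∑ j, (a j : ℂ) * lam j = ∑ j, (b j : ℂ) * lam j → a = b)
    (a b : Fin δ → ℤ) (h : ∑ j, (a j : ℂ) * lam j = ∑ j, (b j : ℂ) * lam j) : a = b := by
  have h1 := hlam (Finsupp.equivFunOnFinite.symm fun j => (a j).toNat + (-b j).toNat)
    (Finsupp.equivFunOnFinite.symm fun j => (b j).toNat + (-a j).toNat) (by
    simp only [Finsupp.equivFunOnFinite_symm_apply_apply]
    have h2 : ∀ c : ℤ, ((c.toNat : ℕ) : ℂ) = (c : ℂ) + (((-c).toNat : ℕ) : ℂ) := by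
      intro c
      have h3 : ((c.toNat : ℕ) : ℤ) = c + (((-c).toNat : ℕ) : ℤ) := by omega
      exact_mod_cast congrArg (fun z : ℤ => (z : ℂ)) h3
    have h4 : ∀ j, (((a j).toNat + (-b j).toNat : ℕ) : ℂ) * lam j -
        (((b j).toNat + (-a j).toNat : ℕ) : ℂ) * lam j = (a j : ℂ) * lam j - (b j : ℂ) * lam j := by
      intro j
      push_cast
      rw [h2 (a j), h2 (b j)]
      ring
    rw [← sub_eq_zero, ← Finset.sum_sub_distrib, Finset.sum_congr rfl fun j _ => h4 j,
      Finset.sum_sub_distrib, h, sub_self])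
  funext j
  have h2 := congrArg (fun f : Fin δ →₀ ℕ => f j) h1
  simp only [Finsupp.equivFunOnFinite_symm_apply_apply] at h2
  omega

/-- the points of the one-parameter group -/
noncomputable def yy (lam : Fin δ → ℂ) (z : ℂ) : Fin δ → ℂˣ :=
  fun k => Units.mk0 (Complex.exp (lam k * z)) (Complex.exp_ne_zero _)

theorem xm_yy (lam : Fin δ → ℂ) (z : ℂ) (a : Fin δ → ℤ) :
    ((xm (yy lam z) a : ℂˣ) : ℂ) = Complex.exp ((∑ k, (a k : ℂ) * lam k) * z) := by
  unfold xm yy
  rw [Units.coe_prod, Finset.sum_mul, Complex.exp_sum]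
  refine Finset.prod_congr rfl fun k _ => ?_
  rw [Units.val_zpow_eq_zpow_val, Units.val_mk0, ← Complex.exp_int_mul]
  congr 1
  ring

theorem diff_ep (lam : Fin δ → ℂ) (g : Lau δ) : Differentiable ℂ fun z => ep (yy lam z) g := by
  induction g using AddMonoidAlgebra.induction_linear with
  | zero =>
    simp only [map_zero]
    exact differentiable_const _
  | add f g hf hg =>
    simp only [map_add]
    exact hf.add hg
  | single a c =>
    simp only [ep_single, xm_yy]
    exact (((differentiable_const _).mul differentiable_id).cexp).const_smul c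

theorem exp_inj {a b : ℂ} (h : ∀ z : ℂ, Complex.exp (a * z) = Complex.exp (b * z)) : a = b := by
  by_contra hne
  have hd : a - b ≠ 0 := sub_ne_zero.mpr hne
  have h1 := h (Complex.log 2 / (a - b))
  have h2 : a * (Complex.log 2 / (a - b)) = b * (Complex.log 2 / (a - b)) + Complex.log 2 := by
    field_simp
    ring
  rw [h2, Complex.exp_add, Complex.exp_log two_ne_zero] at h1
  have h3 := Complex.exp_ne_zero (b * (Complex.log 2 / (a - b)))
  have h4 : (2 : ℂ) = 1 := by
    apply mul_left_cancel₀ h3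
    rw [h1, mul_one]
  norm_num at h4

/-- exponentials -/
noncomputable def ee (a : ℂ) : Multiplicative ℂ →* ℂ where
  toFun := fun z => Complex.exp (a * z.toAdd)
  map_one' := by rw [toAdd_one, mul_zero, Complex.exp_zero]
  map_mul' := fun z z' => by rw [toAdd_mul, mul_add, Complex.exp_add]

theorem expo_indep (lam : Fin δ → ℂ)
    (hlam : ∀ a b : Fin δ →₀ ℕ, ∑ j, (a j : ℂ) * lam j = ∑ j, (b j : ℂ) * lam j → a = b)
    (g : Lau δ) (h : ∀ z, ep (yy lam z) g = 0) : g = 0 := by
  classical
  have hli := linearIndependent_monoidHom (Multiplicative ℂ) ℂ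
  have hinj : Function.Injective (fun a : Fin δ → ℤ => ee (∑ k, (a k : ℂ) * lam k)) := by
    intro a b hab
    apply lam_int lam hlam
    apply exp_inj
    intro z
    exact congrArg (fun f : Multiplicative ℂ →* ℂ => f (Multiplicative.ofAdd z)) hab
  have hli2 := hli.comp _ hinj
  have hg : g = ∑ m ∈ g.coeff.support, AddMonoidAlgebra.single m (g.coeff m) := by
    conv_lhs => rw [← AddMonoidAlgebra.sum_coeff_single g]
    rfl
  apply AddMonoidAlgebra.coeff_injective
  ext a
  by_contra hne
  have ha : a ∈ g.coeff.support := Finsupp.mem_support_iff.mpr hne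
  refine hne (linearIndependent_iff'.mp hli2 g.coeff.support (fun m => g.coeff m) ?_ a ha)
  funext z
  have h1 := h z.toAdd
  rw [hg, map_sum] at h1
  rw [Finset.sum_apply]
  change _ = (0 : ℂ)
  rw [← h1]
  refine Finset.sum_congr rfl fun m _ => ?_
  rw [ep_single, xm_yy]
  rfl

end expo

section homog

variable {n r : ℕ} {L : Type} [Field L] [Algebra ℂ L]

/-- weighted homogeneous polynomials -/
theorem aeval_wh {X : Cov n r} {m : ℕ} {B : Poly n r} {D : ℕ} (hB : WH X m B D) (s : L)
    (u : Fin (n + 1) → L) (v : Fin r → L) :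
    aeval (Sum.elim (fun i => s * u i) (fun j => s ^ X.wt m j * v j)) B =
      s ^ D * aeval (Sum.elim u v) B := by
  rw [aeval_def, aeval_def, eval₂_eq, eval₂_eq, Finset.mul_sum]
  refine Finset.sum_congr rfl fun d hd => ?_
  have h1 := hB (mem_support_iff.mp hd)
  rw [Finsupp.weight_apply] at h1
  have h2 : ∏ i ∈ d.support, Sum.elim (fun i => s * u i) (fun j => s ^ X.wt m j * v j) i ^ d i =
      s ^ D * ∏ i ∈ d.support, Sum.elim u v i ^ d i := by
    rw [← h1, Finsupp.sum, ← Finset.prod_pow_eq_pow_sum, ← Finset.prod_mul_distrib]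
    refine Finset.prod_congr rfl fun i _ => ?_
    rcases i with i | j
    · simp only [Sum.elim_inl, smul_eq_mul, mul_one]
      rw [mul_pow]
    · simp only [Sum.elim_inr, smul_eq_mul]
      rw [mul_pow, ← pow_mul, mul_comm (X.wt m j)]
  rw [h2]
  ring

end homog

theorem ev_ae {ι : Type} (u : ι → ℂ) (f : MvPolynomial ι ℂ) : eval u f = aeval u f := by
  rw [← coe_aeval_eq_eval]
  rfl

theorem t_tdense : St_tdense := by
  classical
  intro n r X m hm he hT L _ _ t w hF
  obtain ⟨δ, σ, hb, htop, hti, hwj, βG, cG, hG⟩ := toric_frame X hm he hT hF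
  choose β c hβ using hti
  choose W hW using hwj
  obtain ⟨lam, hlam⟩ := exists_lam ℂ δ
  set T : Fin (n + 1) → Lau δ := fun i => AddMonoidAlgebra.single (β i) (c i : ℂ) with hTdef
  have hT1 : ∀ i, t i = t 0 * ep σ (T i) := by
    intro i
    rw [hTdef]
    change t i = t 0 * ep σ (AddMonoidAlgebra.single (β i) (c i : ℂ))
    rw [ep_single, Algebra.smul_def, ← hβ, mul_div_cancel₀ _ hF.ne]
  have hW1 : ∀ j, w j = t 0 ^ X.wt m j * ep σ (W j) := by
    intro j
    rw [← hW, mul_div_cancel₀ _ (pow_ne_zero _ hF.ne)]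
  -- the relation
  have hBrel : ∀ (B : Poly n r) (D : ℕ), WH X.toCov m B D →
      (aeval (Sum.elim t w) B = 0 ↔ aeval (Sum.elim T W) B = 0) := by
    intro B D hB
    have h1 : aeval (Sum.elim t w) B = t 0 ^ D * ep σ (aeval (Sum.elim T W) B) := by
      rw [← AlgHom.comp_apply, comp_aeval]
      have h2 : (Sum.elim t w) = Sum.elim (fun i => t 0 * ep σ (T i))
          (fun j => t 0 ^ X.wt m j * ep σ (W j)) := by
        funext i
        rcases i with i | j
        · exact hT1 i
        · exact hW1 j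
      rw [h2, aeval_wh hB]
      congr 3
      funext i
      rcases i with i | j <;> rfl
    rw [h1, mul_eq_zero]
    constructor
    · rintro (h | h)
      · exact absurd h (pow_ne_zero _ hF.ne)
      · exact ep_inj σ hb.1 _ h
    · intro h
      rw [h, map_zero]
      exact Or.inr rfl
  have hev : ∀ (B : Poly n r) (z : ℂ), eval (Sum.elim (fun i => ep (yy lam z) (T i))
      (fun j => ep (yy lam z) (W j))) B = ep (yy lam z) (aeval (Sum.elim T W) B) := by
    intro B z
    rw [← AlgHom.comp_apply, comp_aeval, ev_ae]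
    congr 2
    funext i
    rcases i with i | j <;> rfl
  refine ⟨fun z i => ep (yy lam z) (T i), fun z j => ep (yy lam z) (W j), ?_, ?_, ?_, ?_⟩
  · exact differentiable_pi.mpr fun i => diff_ep lam (T i)
  · exact differentiable_pi.mpr fun j => diff_ep lam (W j)
  · intro z
    refine ⟨?_, ?_, ?_⟩
    · intro h
      have h1 := congrFun h 0
      change ep (yy lam z) (AddMonoidAlgebra.single (β 0) (c 0 : ℂ)) = 0 at h1
      rw [ep_single, smul_eq_mul] at h1
      exact mul_ne_zero (c 0).ne_zero (Units.ne_zero _) h1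
    · intro B D hB h
      rw [hev, (hBrel B D hB).mp h, map_zero]
    · have h1 : aeval (fun i => T i ^ m) X.G = AddMonoidAlgebra.single βG (cG : ℂ) := by
        rw [← sub_eq_zero]
        apply ep_inj σ hb.1
        rw [map_sub, ← AlgHom.comp_apply, comp_aeval, ep_single, Algebra.smul_def, sub_eq_zero]
        have h2 : (fun i => t i ^ m) = fun i => t 0 ^ m * ep σ (T i) ^ m := by
          funext i
          rw [← mul_pow, ← hT1]
        rw [h2, aeval_hom X.hG] at hG
        have h3 := mul_left_cancel₀ (pow_ne_zero _ (pow_ne_zero _ hF.ne)) hG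
        rw [← h3]
        congr 2
        funext i
        rw [map_pow]
      have h2 : eval (fun i => ep (yy lam z) (T i) ^ m) X.G =
          ep (yy lam z) (aeval (fun i => T i ^ m) X.G) := by
        rw [← AlgHom.comp_apply, comp_aeval, ev_ae]
        congr 2
        funext i
        rw [map_pow]
      rw [h2, h1, ep_single, smul_eq_mul]
      exact mul_ne_zero cG.ne_zero (Units.ne_zero _)
  · intro B D hB h
    rw [hBrel B D hB]
    apply expo_indep lam hlam
    intro z
    rw [← hev]
    exact h z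

end Pool.Agent.Y379.KS
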