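import Pool.Agent.Y379.KS.Toric
import Pool.Agent.W602.GT.SConst

/-!
Covers of closures of orbits are special (task KS4 of the project on covers of subvarieties of
tori).
-/

set_option autoImplicit false

namespace Pool.Agent.Y379.KS

open MvPolynomial FF Pool.Agent.Y192.OG Pool.Agent.Y192.KC Pool.Agent.W602.GT Pool.Agent.W603.BP

theorem ord_xm {L : Type} [Field L] [Algebra ℂ L] (P : Place ℂ L) {δ : ℕ} (σ : Fin δ → Lˣ)
    (h : ∀ k, P.ord (σ k : L) = 0) (β : Fin δ → ℤ) : P.ord (xm σ β : L) = 0 := by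
  classical
  have key : ∀ s : Finset (Fin δ), P.ord ((∏ k ∈ s, σ k ^ β k : Lˣ) : L) = 0 := by
    intro s
    induction s using Finset.induction_on with
    | empty => rw [Finset.prod_empty, Units.val_one, P.ord_one]
    | insert k s hk ih =>
      rw [Finset.prod_insert hk, Units.val_mul, P.ord_mul (Units.ne_zero _) (Units.ne_zero _), ih,
        Units.val_zpow_eq_zpow_val, P.ord_zpow, h k, mul_zero, add_zero]
  exact key Finset.univ

theorem t_tspec : St_tspec := by
  intro n r X m hm he hT L _ _ t w hF d hd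
  obtain ⟨δ, σ, hb, htop, hti, -, βG, cG, hG⟩ := toric_frame X hm he hT hF
  have hδ : δ = d := by
    have h1 := hb.cardinalMk_eq_trdeg
    rw [hd, Cardinal.mk_fin] at h1
    exact_mod_cast h1
  subst hδ
  refine special_of_frame (fun k => (σ k : L)) hb htop fun P hP hOff => ?_
  have ht : ∀ i, t i ≠ 0 ∧ P.ord (t i) = P.ord (t 0) := by
    intro i
    obtain ⟨β, c, h1⟩ := hti i
    have h2 : t i = t 0 * (algebraMap ℂ L c * (xm σ β : L)) := by
      rw [← h1, mul_div_cancel₀ _ hF.ne]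
    have h3 : algebraMap ℂ L (c : ℂ) ≠ 0 := (map_ne_zero _).mpr c.ne_zero
    have h4 : (algebraMap ℂ L (c : ℂ) * (xm σ β : L)) ≠ 0 := mul_ne_zero h3 (Units.ne_zero _)
    refine ⟨by rw [h2]; exact mul_ne_zero hF.ne h4, ?_⟩
    conv_lhs => rw [h2]
    rw [P.ord_mul hF.ne h4, P.ord_mul h3 (Units.ne_zero _), P.ord_const c.ne_zero,
      ord_xm P σ hP, add_zero, add_zero]
  have h1 := hOff (P.ord (t 0)) (fun i => (ht i).2.ge) ⟨0, rfl⟩
  have h3 : algebraMap ℂ L (cG : ℂ) ≠ 0 := (map_ne_zero _).mpr cG.ne_zero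
  rw [hG, P.ord_mul (pow_ne_zero _ (pow_ne_zero _ hF.ne)) (mul_ne_zero h3 (Units.ne_zero _)),
    P.ord_mul h3 (Units.ne_zero _), P.ord_const cG.ne_zero, ord_xm P σ hP, P.ord_pow,
    P.ord_pow] at h1
  have h5 : (m : ℤ) * X.q * P.ord (t 0) = X.q * (m * P.ord (t 0)) + (0 + 0) := by ring
  rw [← h5] at h1
  exact lt_irrefl _ h1

end Pool.Agent.Y379.KS
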