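import Pool.Agent.Y379.KS.Lp3
import Pool.Agent.W602.GT.Dich

/-!
Multiplicatively independent generators modulo constants (task KS4, KS5 of the project on covers of
subvarieties of tori).
-/

set_option autoImplicit false

namespace Pool.Agent.Y379.KS

open MvPolynomial FF Pool.Agent.Y192.OG Pool.Agent.Y192.KC Pool.Agent.W602.GT Pool.Agent.W603.BP
open Pool.Agent.Y379.KG (xm_sum xm_smul LL LL_apply)

variable {n p : ℕ}

/-! ### Algebraic independence of monomials -/

theorem poly_coeff {δ : ℕ} (P : MvPolynomial (Fin δ) ℂ) (a : Fin δ →₀ ℕ) :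
    (aeval (fun k => (AddMonoidAlgebra.single (Pi.single k 1) (1 : ℂ) : Lau δ)) P).coeff
      (fun k => (a k : ℤ)) = P.coeff a := by
  classical
  induction P using MvPolynomial.induction_on' with
  | monomial u c =>
    have h3 : ∀ s : Finset (Fin δ), ∏ k ∈ s, (AddMonoidAlgebra.single
        (u k • (Pi.single k 1 : Fin δ → ℤ)) (1 : ℂ) : Lau δ) =
        AddMonoidAlgebra.single (∑ k ∈ s, u k • (Pi.single k 1 : Fin δ → ℤ)) 1 := by
      intro s
      induction s using Finset.induction_on with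
      | empty => rfl
      | insert i s hi ih =>
        rw [Finset.prod_insert hi, Finset.sum_insert hi, ih, AddMonoidAlgebra.single_mul_single,
          one_mul]
    have h4 : ∑ k, u k • (Pi.single k 1 : Fin δ → ℤ) = fun k => (u k : ℤ) := by
      funext j
      rw [Finset.sum_apply, Finset.sum_eq_single j]
      · rw [Pi.smul_apply, Pi.single_eq_same, nsmul_eq_mul, mul_one]
      · intro i _ hi
        rw [Pi.smul_apply, Pi.single_eq_of_ne (Ne.symm hi), smul_zero]
      · intro h
        exact absurd (Finset.mem_univ j) h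
    rw [aeval_monomial, Finsupp.prod_fintype _ _ (fun i => pow_zero _)]
    simp only [AddMonoidAlgebra.single_pow, one_pow]
    rw [h3, h4, ← Algebra.smul_def, AddMonoidAlgebra.smul_single, smul_eq_mul, mul_one,
      AddMonoidAlgebra.coeff_single, coeff_monomial]
    by_cases h : u = a
    · rw [if_pos h, h, Finsupp.single_eq_same]
    · rw [if_neg h, Finsupp.single_eq_of_ne]
      intro h1
      apply h
      ext k
      have := congrFun h1 k
      exact_mod_cast this.symm
  | add f g hf hg =>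
    rw [map_add, AddMonoidAlgebra.coeff_add, Finsupp.add_apply, hf, hg, coeff_add]

theorem psi_coeff {δ : ℕ} (v : Fin δ → Fin p → ℤ) (c : Fin δ → ℂˣ)
    (hv : ∀ a : Fin δ → ℤ, LL v a = 0 → a = 0) (g : Lau δ) (a : Fin δ → ℤ) :
    (psi v c g).coeff (LL v a) = g.coeff a * ((xm c a : ℂˣ) : ℂ) := by
  classical
  induction g using AddMonoidAlgebra.induction_linear with
  | zero =>
    rw [map_zero]
    change (0 : ℂ) = 0 * _
    rw [zero_mul]
  | add f g hf hg =>
    rw [map_add, AddMonoidAlgebra.coeff_add, AddMonoidAlgebra.coeff_add, Finsupp.add_apply,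
      Finsupp.add_apply, hf, hg, add_mul]
  | single b d =>
    rw [psi_single, ← LL_apply, AddMonoidAlgebra.coeff_single, AddMonoidAlgebra.coeff_single]
    by_cases h : b = a
    · rw [h, Finsupp.single_eq_same, Finsupp.single_eq_same]
    · rw [Finsupp.single_eq_of_ne (Ne.symm h), zero_mul, Finsupp.single_eq_of_ne]
      intro h1
      apply h
      have h2 : LL v (a - b) = 0 := by rw [map_sub, h1, sub_self]
      exact (sub_eq_zero.mp (hv _ h2)).symm

theorem mono_indep {δ : ℕ} (v : Fin δ → Fin p → ℤ) (c : Fin δ → ℂˣ)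
    (hv : ∀ a : Fin δ → ℤ, LL v a = 0 → a = 0) (P : MvPolynomial (Fin δ) ℂ)
    (hP : psi v c (aeval (fun k => (AddMonoidAlgebra.single (Pi.single k 1) (1 : ℂ) : Lau δ)) P) = 0) :
    P = 0 := by
  ext a
  have h1 := psi_coeff v c hv
    (aeval (fun k => (AddMonoidAlgebra.single (Pi.single k 1) (1 : ℂ) : Lau δ)) P)
    (fun k => (a k : ℤ))
  rw [hP, poly_coeff] at h1
  change (0 : ℂ) = _ at h1
  rw [coeff_zero]
  rcases mul_eq_zero.mp h1.symm with h | h
  · exact h
  · exact absurd h (Units.ne_zero _)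

section field

variable {L : Type} [Field L] [Algebra ℂ L]

/-- constants as units -/
noncomputable abbrev cu (L : Type) [Field L] [Algebra ℂ L] : ℂˣ →* Lˣ :=
  Units.map (algebraMap ℂ L).toMonoidHom

theorem ep_poly {δ : ℕ} (σ : Fin δ → Lˣ) (P : MvPolynomial (Fin δ) ℂ) :
    ep σ (aeval (fun k => (AddMonoidAlgebra.single (Pi.single k 1) (1 : ℂ) : Lau δ)) P) =
      aeval (fun k => (σ k : L)) P := by
  rw [← AlgHom.comp_apply, comp_aeval]
  congr 2
  funext k
  rw [ep_single, one_smul]
  congr 1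
  unfold xm
  rw [Finset.prod_eq_single k]
  · rw [Pi.single_eq_same, zpow_one]
  · intro j _ hj
    rw [Pi.single_eq_of_ne hj, zpow_zero]
  · intro h
    exact absurd (Finset.mem_univ k) h

theorem xm_const_iff (x : Fin n → Lˣ) (B : Fin n → Fin p → ℤ)
    (κ : Fin n → ℂˣ) (hker : ∀ g : Lau n, ep x g = 0 ↔ psi B κ g = 0) {μ : Fin n → ℤ}
    (h : LL B μ = 0) : xm x μ = cu L (xm κ μ) := by
  have h1 : ep x (AddMonoidAlgebra.single μ 1 -
      AddMonoidAlgebra.single 0 ((xm κ μ : ℂˣ) : ℂ)) = 0 := by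
    rw [hker, map_sub, psi_single, psi_single, xm_zero, ← LL_apply, ← LL_apply, h, map_zero,
      one_mul, Units.val_one, mul_one, sub_self]
  rw [map_sub, ep_single, ep_single, xm_zero, one_smul, sub_eq_zero, Units.val_one,
    Algebra.smul_def, mul_one] at h1
  apply Units.ext
  exact h1

/-- algebraic independence of multiplicatively independent monomials -/
theorem indep_pow (x : Fin n → Lˣ) (B : Fin n → Fin p → ℤ)
    (κ : Fin n → ℂˣ) (hker : ∀ g : Lau n, ep x g = 0 ↔ psi B κ g = 0) {δ : ℕ} (σ : Fin δ → Lˣ)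
    {m : ℕ} (hm : 0 < m) (hσm : ∀ k, ∃ (l : Fin n → ℤ) (c : ℂˣ), σ k ^ m = cu L c * xm x l)
    (hσ0 : ∀ β : Fin δ → ℤ, (∃ c : ℂˣ, xm σ β = cu L c) → β = 0) :
    AlgebraicIndependent ℂ (fun k => (σ k : L) ^ m) := by
  choose l c hlc using hσm
  have hx1 : ∀ k, ((σ k ^ m : Lˣ) : L) = algebraMap ℂ L (c k) * (xm x (l k) : L) := by
    intro k
    rw [hlc k, Units.val_mul]
    rfl
  have hv : ∀ a : Fin δ → ℤ, LL (fun k => LL B (l k)) a = 0 → a = 0 := by
    intro a ha
    have h1 : LL B (∑ k, a k • l k) = 0 := by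
      rw [LL_apply] at ha
      rw [map_sum, ← ha]
      exact Finset.sum_congr rfl fun k _ => by rw [map_smul]
    have h2 := xm_const_iff x B κ hker h1
    have h3 : xm σ ((m : ℤ) • a) = cu L (xm c a * xm κ (∑ k, a k • l k)) := by
      rw [map_mul, ← h2]
      have h4 := xm_psi l c x (fun k => σ k ^ m) hx1 a
      apply Units.ext
      rw [Units.val_mul]
      have h5 : xm σ ((m : ℤ) • a) = xm (fun k => σ k ^ m) a := by
        unfold xm
        refine Finset.prod_congr rfl fun k _ => ?_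
        rw [Pi.smul_apply, smul_eq_mul, zpow_mul, zpow_natCast]
      rw [h5, h4]
      rfl
    have h5 := hσ0 _ ⟨_, h3⟩
    have h6 : (m : ℤ) ≠ 0 := by exact_mod_cast hm.ne'
    exact (smul_eq_zero.mp h5).resolve_left h6
  rw [algebraicIndependent_iff]
  intro P hP
  have h1 : aeval (fun k => ((σ k ^ m : Lˣ) : L)) P = 0 := by
    rw [← hP]
    congr 2
  rw [← ep_poly (fun k => σ k ^ m), ← ep_psi l c x (fun k => σ k ^ m) hx1, hker] at h1
  have h2 : ∀ g : Lau δ, psi B κ (psi l c g) =
      psi (fun k => LL B (l k)) (fun k => c k * xm κ (l k)) g := by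
    intro g
    induction g using AddMonoidAlgebra.induction_linear with
    | zero => rw [map_zero, map_zero, map_zero]
    | add f g hf hg => rw [map_add, map_add, map_add, hf, hg]
    | single a d =>
      rw [psi_single, psi_single, psi_single]
      have e1 : ∑ i, (∑ k, a k • l k) i • B i = ∑ k, a k • LL B (l k) := by
        rw [← LL_apply, map_sum]
        exact Finset.sum_congr rfl fun k _ => by rw [map_smul]
      have e2 : xm (fun k => c k * xm κ (l k)) a = xm c a * xm κ (∑ k, a k • l k) := by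
        rw [xm_sum]
        unfold xm
        rw [← Finset.prod_mul_distrib]
        refine Finset.prod_congr rfl fun k _ => ?_
        rw [mul_zpow]
        congr 1
        exact (xm_smul κ (a k) (l k)).symm
      rw [e1, e2, Units.val_mul, mul_assoc]
  rw [h2] at h1
  exact mono_indep _ _ hv P h1

/-! ### The group of units modulo constants -/

/-- the constants -/
noncomputable def Cst (L : Type) [Field L] [Algebra ℂ L] : Submodule ℤ (Additive Lˣ) :=
  LinearMap.range ((cu L).toAdditive.toIntLinearMap)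

/-- the class of a unit modulo constants -/
noncomputable def cls (u : Lˣ) : Additive Lˣ ⧸ Cst L := (Cst L).mkQ (Additive.ofMul u)

theorem cls_mul (u v : Lˣ) : cls (u * v) = cls u + cls v := by
  unfold cls
  rw [ofMul_mul, map_add]

theorem cls_zpow (u : Lˣ) (k : ℤ) : cls (u ^ k) = k • cls u := by
  unfold cls
  rw [ofMul_zpow, map_smul]

theorem cls_eq_zero (u : Lˣ) : cls u = 0 ↔ ∃ c : ℂˣ, u = cu L c := by
  unfold cls
  change Submodule.Quotient.mk _ = 0 ↔ _
  rw [Submodule.Quotient.mk_eq_zero]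
  unfold Cst
  constructor
  · rintro ⟨c, hc⟩
    exact ⟨Additive.toMul c, (Additive.ofMul.injective hc).symm⟩
  · rintro ⟨c, rfl⟩
    exact ⟨Additive.ofMul c, rfl⟩

theorem cls_xm {δ : ℕ} (σ : Fin δ → Lˣ) (β : Fin δ → ℤ) : cls (xm σ β) = ∑ k, β k • cls (σ k) := by
  unfold xm cls
  rw [ofMul_prod, map_sum]
  exact Finset.sum_congr rfl fun k _ => by rw [ofMul_zpow, map_smul]

theorem tf (k : ℤ) (hk : k ≠ 0) (z : Additive Lˣ ⧸ Cst L) (h : k • z = 0) : z = 0 := by
  obtain ⟨u, rfl⟩ := (Cst L).mkQ_surjective z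
  change k • cls (Additive.toMul u) = 0 at h
  change cls (Additive.toMul u) = 0
  set v : Lˣ := Additive.toMul u
  rw [← cls_zpow, cls_eq_zero] at h
  obtain ⟨c, hc⟩ := h
  have h1 : IsAlgebraic ℂ (v : L) := by
    have h2 : ∃ (K : ℕ) (d : ℂˣ), 0 < K ∧ v ^ K = cu L d := by
      rcases lt_or_gt_of_ne hk with h3 | h3
      · refine ⟨(-k).toNat, c⁻¹, by omega, ?_⟩
        have h4 : (((-k).toNat : ℕ) : ℤ) = -k := Int.toNat_of_nonneg (by omega)
        rw [← zpow_natCast, h4, zpow_neg, hc, map_inv]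
      · refine ⟨k.toNat, c, by omega, ?_⟩
        have h4 : ((k.toNat : ℕ) : ℤ) = k := Int.toNat_of_nonneg (by omega)
        rw [← zpow_natCast, h4, hc]
    obtain ⟨K, d, hK, hd⟩ := h2
    refine IsAlgebraic.of_pow hK ?_
    rw [← Units.val_pow_eq_pow_val, hd]
    exact isAlgebraic_algebraMap (d : ℂ)
  obtain ⟨d, hd⟩ := const_of_algebraic h1
  rw [cls_eq_zero]
  have hd0 : d ≠ 0 := by
    rintro rfl
    rw [map_zero] at hd
    exact v.ne_zero hd
  exact ⟨Units.mk0 d hd0, Units.ext hd⟩

/-- a basis of the group generated by finitely many units modulo constants -/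
theorem exists_gens {ι : Type} [Finite ι] (gen : ι → Lˣ) :
    ∃ (δ : ℕ) (σ : Fin δ → Lˣ), (∀ i, ∃ (β : Fin δ → ℤ) (c : ℂˣ), gen i = cu L c * xm σ β) ∧
      (∀ k, cls (σ k) ∈ Submodule.span ℤ (Set.range fun i => cls (gen i))) ∧
      ∀ β : Fin δ → ℤ, (∃ c : ℂˣ, xm σ β = cu L c) → β = 0 := by
  classical
  have _ := Fintype.ofFinite ι
  set M := Submodule.span ℤ (Set.range fun i => cls (gen i)) with hM
  have hfin : Module.Finite ℤ M := Module.Finite.span_of_finite ℤ (Set.finite_range _)
  have htf : Module.IsTorsionFree ℤ M := by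
    refine ⟨fun k hk x y hxy => ?_⟩
    have hk0 : k ≠ 0 := hk.ne_zero
    have h1 : k • (x - y) = 0 := by
      rw [smul_sub, sub_eq_zero]
      exact hxy
    have h2 : k • ((x - y : M) : Additive Lˣ ⧸ Cst L) = 0 := by
      rw [← Submodule.coe_smul, h1, Submodule.coe_zero]
    have h3 := tf k hk0 _ h2
    exact sub_eq_zero.mp (Subtype.ext h3)
  have hfree : Module.Free ℤ M := inferInstance
  set b := Module.finBasis ℤ M
  have hs : ∀ k, ∃ u : Lˣ, cls u = (b k : Additive Lˣ ⧸ Cst L) := by
    intro k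
    obtain ⟨u, hu⟩ := (Cst L).mkQ_surjective (b k : Additive Lˣ ⧸ Cst L)
    exact ⟨Additive.toMul u, hu⟩
  choose σ hσ using hs
  refine ⟨_, σ, fun i => ?_, fun k => ?_, fun β hβ => ?_⟩
  · have hi : cls (gen i) ∈ M := Submodule.subset_span ⟨i, rfl⟩
    set z : M := ⟨cls (gen i), hi⟩
    have h1 : cls (gen i * (xm σ (fun k => b.repr z k))⁻¹) = 0 := by
      rw [cls_mul, ← zpow_neg_one, cls_zpow, cls_xm, neg_one_smul, ← sub_eq_add_neg, sub_eq_zero]
      have h2 := congrArg (Subtype.val) (b.sum_repr z)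
      rw [Submodule.coe_sum] at h2
      change _ = cls (gen i) at h2
      rw [← h2]
      refine Finset.sum_congr rfl fun k _ => ?_
      rw [Submodule.coe_smul, hσ]
    obtain ⟨c, hc⟩ := (cls_eq_zero _).mp h1
    refine ⟨fun k => b.repr z k, c, ?_⟩
    rw [← hc, inv_mul_cancel_right]
  · rw [hσ]
    exact (b k).2
  · obtain ⟨c, hc⟩ := hβ
    have h1 : cls (xm σ β) = 0 := (cls_eq_zero _).mpr ⟨c, hc⟩
    rw [cls_xm] at h1
    have h2 : ∑ k, β k • b k = 0 := by
      apply Subtype.ext
      rw [Submodule.coe_sum, Submodule.coe_zero, ← h1]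
      refine Finset.sum_congr rfl fun k _ => ?_
      rw [Submodule.coe_smul, hσ]
    have h3 := (Fintype.linearIndependent_iff.mp b.linearIndependent) β h2
    funext k
    exact h3 k

end field

end Pool.Agent.Y379.KS
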