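import Pool.Agent.Y192.KC.SStm
import Pool.Agent.Y192.KC.ZK
import Pool.Agent.W602.GT.SConst

/-!
Laurent polynomials: characters, homogeneity of roots, monomial homomorphisms with coefficients
(task KS4, KS5 of the project on covers of subvarieties of tori).
-/

set_option autoImplicit false

namespace Pool.Agent.Y379.KS

open FF Pool.Agent.Y192.OG Pool.Agent.Y192.KC Pool.Agent.W602.GT Pool.Agent.W603.BP

section chr

variable {p : ℕ}

/-- characters separate the points from subgroups -/
theorem exists_char (Λ : Submodule ℤ (Fin p → ℤ)) {v : Fin p → ℤ} (hv : v ∉ Λ) :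
    ∃ χ : Multiplicative (Fin p → ℤ) →* ℂˣ, (∀ l ∈ Λ, χ (Multiplicative.ofAdd l) = 1) ∧
      χ (Multiplicative.ofAdd v) ≠ 1 := by
  have h0 : Λ.mkQ v ≠ 0 := fun h => hv ((Submodule.Quotient.mk_eq_zero Λ).mp h)
  obtain ⟨c, hc⟩ := CharacterModule.exists_character_apply_ne_zero_of_ne_zero h0
  let f0 : ℚ →+ Additive ℂˣ :=
    { toFun := fun q => Additive.ofMul (Units.mk0 (Complex.exp (2 * Real.pi * Complex.I * q))
        (Complex.exp_ne_zero _))
      map_zero' := by
        apply Additive.toMul.injective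
        ext
        simp
      map_add' := fun a b => by
        apply Additive.toMul.injective
        ext
        change Complex.exp _ = Complex.exp _ * Complex.exp _
        rw [← Complex.exp_add]
        push_cast
        ring_nf }
  have hker : ∀ q : ℚ, f0 q = 0 ↔ ∃ n : ℤ, (n : ℚ) = q := by
    intro q
    have h1 : f0 q = 0 ↔ Complex.exp (2 * Real.pi * Complex.I * q) = 1 := by
      constructor
      · intro h
        have h2 := congrArg (fun z : Additive ℂˣ => ((Additive.toMul z : ℂˣ) : ℂ)) h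
        exact h2
      · intro h
        apply Additive.toMul.injective
        ext
        exact h
    rw [h1, Complex.exp_eq_one_iff]
    constructor
    · rintro ⟨n, hn⟩
      refine ⟨n, ?_⟩
      have h2 : (2 * Real.pi * Complex.I) * (q : ℂ) = (2 * Real.pi * Complex.I) * (n : ℂ) := by
        rw [hn]
        ring
      have h3 := mul_left_cancel₀ Complex.two_pi_I_ne_zero h2
      exact_mod_cast h3.symm
    · rintro ⟨n, rfl⟩
      exact ⟨n, by push_cast; ring⟩
  let f : AddCircle (1 : ℚ) →+ Additive ℂˣ := QuotientAddGroup.lift _ f0 (by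
    intro q hq
    obtain ⟨n, hn⟩ := AddSubgroup.mem_zmultiples_iff.mp hq
    exact (hker q).mpr ⟨n, by rw [← hn]; simp⟩)
  have hf : ∀ z : AddCircle (1 : ℚ), f z = 0 → z = 0 := by
    intro z hz
    obtain ⟨q, rfl⟩ := QuotientAddGroup.mk_surjective z
    obtain ⟨n, hn⟩ := (hker q).mp hz
    refine (QuotientAddGroup.eq_zero_iff q).mpr (AddSubgroup.mem_zmultiples_iff.mpr ⟨n, ?_⟩)
    rw [← hn]
    simp
  refine ⟨AddMonoidHom.toMultiplicativeLeft ((f.comp c).comp Λ.mkQ.toAddMonoidHom), ?_, ?_⟩
  · intro l hl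
    have h1 : Λ.mkQ l = 0 := (Submodule.Quotient.mk_eq_zero Λ).mpr hl
    change Additive.toMul (f (c (Λ.mkQ l))) = 1
    rw [h1, map_zero, map_zero]
    rfl
  · intro h
    apply hc
    apply hf
    apply Additive.toMul.injective
    exact h

/-- the automorphism given by a character -/
noncomputable def chr (χ : Multiplicative (Fin p → ℤ) →* ℂˣ) : Lau p →ₐ[ℂ] Lau p :=
  AddMonoidAlgebra.lift ℂ (Lau p) (Fin p → ℤ)
    { toFun := fun m => AddMonoidAlgebra.single m.toAdd ((χ m : ℂˣ) : ℂ)
      map_one' := by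
        rw [map_one χ]
        rfl
      map_mul' := fun m m' => by
        rw [AddMonoidAlgebra.single_mul_single, map_mul χ, Units.val_mul]
        rfl }

theorem chr_single (χ : Multiplicative (Fin p → ℤ) →* ℂˣ) (m : Fin p → ℤ) (c : ℂ) :
    chr χ (AddMonoidAlgebra.single m c) =
      AddMonoidAlgebra.single m (c * (χ (Multiplicative.ofAdd m) : ℂˣ)) := by
  unfold chr
  rw [AddMonoidAlgebra.lift_single]
  change c • (AddMonoidAlgebra.single m _ : Lau p) = _
  rw [AddMonoidAlgebra.smul_single, smul_eq_mul]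

theorem chr_coeff (χ : Multiplicative (Fin p → ℤ) →* ℂˣ) (g : Lau p) (m : Fin p → ℤ) :
    (chr χ g).coeff m = g.coeff m * (χ (Multiplicative.ofAdd m) : ℂˣ) := by
  classical
  induction g using AddMonoidAlgebra.induction_linear with
  | zero =>
    rw [map_zero]
    change (0 : ℂ) = 0 * _
    rw [zero_mul]
  | add f g hf hg =>
    rw [map_add, AddMonoidAlgebra.coeff_add, AddMonoidAlgebra.coeff_add, Finsupp.add_apply,
      Finsupp.add_apply, hf, hg, add_mul]
  | single b c =>
    rw [chr_single, AddMonoidAlgebra.coeff_single, AddMonoidAlgebra.coeff_single]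
    by_cases h : b = m
    · rw [h, Finsupp.single_eq_same, Finsupp.single_eq_same]
    · rw [Finsupp.single_eq_of_ne (Ne.symm h), Finsupp.single_eq_of_ne (Ne.symm h), zero_mul]

instance : IsDomain (Lau p) := inferInstance

/-- roots of homogeneous Laurent polynomials are homogeneous -/
theorem hom_of_pow (Λ : Submodule ℤ (Fin p → ℤ)) (S : Lau p) {e : ℕ} (he : 0 < e)
    (q0 : Fin p → ℤ) (h : ∀ m ∈ (S ^ e).coeff.support, m - q0 ∈ Λ) :
    ∀ m ∈ S.coeff.support, ∀ m' ∈ S.coeff.support, m - m' ∈ Λ := by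
  intro m hm m' hm'
  by_contra hcon
  obtain ⟨χ, hχ, hne⟩ := exists_char Λ hcon
  have hS0 : S ≠ 0 := by
    rintro rfl
    rw [Finsupp.mem_support_iff] at hm
    exact hm rfl
  set K := FractionRing (Lau p)
  obtain ⟨ζ, hζ⟩ := IsAlgClosed.exists_pow_nat_eq
    ((χ (Multiplicative.ofAdd q0) : ℂˣ) : ℂ) he
  have hζ0 : ζ ≠ 0 := by
    rintro rfl
    rw [zero_pow he.ne'] at hζ
    exact (χ (Multiplicative.ofAdd q0)).ne_zero hζ.symm
  have h1 : (chr χ S) ^ e = (ζ • S) ^ e := by
    rw [← map_pow, smul_pow, hζ]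
    apply AddMonoidAlgebra.coeff_injective
    ext a
    rw [chr_coeff, AddMonoidAlgebra.coeff_smul, Finsupp.smul_apply, smul_eq_mul, mul_comm]
    by_cases ha : a ∈ (S ^ e).coeff.support
    · congr 1
      have h2 : χ (Multiplicative.ofAdd a) = χ (Multiplicative.ofAdd q0) := by
        have h3 := hχ _ (h a ha)
        rw [ofAdd_sub, map_div, div_eq_one] at h3
        exact h3
      rw [h2]
    · rw [Finsupp.notMem_support_iff.mp ha, mul_zero, mul_zero]
  have hζS : algebraMap (Lau p) K (ζ • S) ≠ 0 := by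
    rw [Ne, map_eq_zero_iff _ (IsFractionRing.injective (Lau p) K)]
    exact smul_ne_zero hζ0 hS0
  have h2 : IsAlgebraic ℂ (algebraMap (Lau p) K (chr χ S) / algebraMap (Lau p) K (ζ • S)) := by
    have h3 : (algebraMap (Lau p) K (chr χ S) / algebraMap (Lau p) K (ζ • S)) ^ e = 1 := by
      rw [div_pow, ← map_pow (algebraMap (Lau p) K), ← map_pow (algebraMap (Lau p) K), h1,
        div_self]
      rw [map_pow]
      exact pow_ne_zero _ hζS
    have h4 : IsAlgebraic ℂ
        ((algebraMap (Lau p) K (chr χ S) / algebraMap (Lau p) K (ζ • S)) ^ e) := by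
      rw [h3]
      exact isAlgebraic_one
    exact h4.of_pow he
  obtain ⟨c, hc⟩ := const_of_algebraic h2
  rw [div_eq_iff hζS] at hc
  have h5 : chr χ S = (c * ζ) • S := by
    apply IsFractionRing.injective (Lau p) K
    rw [hc, mul_smul, Algebra.smul_def c, map_mul]
    rfl
  have h6 : ∀ a ∈ S.coeff.support, ((χ (Multiplicative.ofAdd a) : ℂˣ) : ℂ) = c * ζ := by
    intro a ha
    have h7 := congrArg (fun g : Lau p => g.coeff a) h5
    change (chr χ S).coeff a = ((c * ζ) • S).coeff a at h7
    rw [chr_coeff, AddMonoidAlgebra.coeff_smul, Finsupp.smul_apply, smul_eq_mul, mul_comm] at h7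
    exact mul_right_cancel₀ (Finsupp.mem_support_iff.mp ha) h7
  apply hne
  rw [ofAdd_sub, map_div, div_eq_one]
  apply Units.ext
  rw [h6 m hm, h6 m' hm']

end chr

end Pool.Agent.Y379.KS
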