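import Pool.Agent.Y379.KS.Lp
import Pool.Agent.Y379.KG.Desc

/-!
Monomial homomorphisms with coefficients, and the form of `e`-th roots in a subvariety which is the
closure of an orbit (task KS4, KS5 of the project on covers of subvarieties of tori).
-/

set_option autoImplicit false

namespace Pool.Agent.Y379.KS

open MvPolynomial FF Pool.Agent.Y192.OG Pool.Agent.Y192.KC Pool.Agent.W602.GT Pool.Agent.W603.BP
open Pool.Agent.Y379.KG (xm_sum xm_smul)

variable {n p : ℕ}

/-- the homomorphism given by monomials with coefficients -/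
noncomputable def psi (B : Fin n → Fin p → ℤ) (κ : Fin n → ℂˣ) : Lau n →ₐ[ℂ] Lau p :=
  AddMonoidAlgebra.lift ℂ (Lau p) (Fin n → ℤ)
    { toFun := fun μ => AddMonoidAlgebra.single (∑ i, μ.toAdd i • B i) ((xm κ μ.toAdd : ℂˣ) : ℂ)
      map_one' := by
        rw [toAdd_one, xm_zero]
        simp only [Pi.zero_apply, zero_smul, Finset.sum_const_zero, Units.val_one]
        rfl
      map_mul' := fun μ μ' => by
        rw [AddMonoidAlgebra.single_mul_single, toAdd_mul, xm_add, Units.val_mul,
          ← Finset.sum_add_distrib]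
        congr 1
        refine Finset.sum_congr rfl fun i _ => ?_
        rw [Pi.add_apply, add_smul] }

theorem psi_single (B : Fin n → Fin p → ℤ) (κ : Fin n → ℂˣ) (μ : Fin n → ℤ) (c : ℂ) :
    psi B κ (AddMonoidAlgebra.single μ c) =
      AddMonoidAlgebra.single (∑ i, μ i • B i) (c * ((xm κ μ : ℂˣ) : ℂ)) := by
  unfold psi
  rw [AddMonoidAlgebra.lift_single]
  change c • (AddMonoidAlgebra.single _ _ : Lau p) = _
  rw [AddMonoidAlgebra.smul_single, smul_eq_mul]
  rfl

theorem psi_supp (B : Fin n → Fin p → ℤ) (κ : Fin n → ℂˣ) (g : Lau n) :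
    ∀ m ∈ (psi B κ g).coeff.support, m ∈ Submodule.span ℤ (Set.range B) := by
  classical
  induction g using AddMonoidAlgebra.induction_linear with
  | zero =>
    intro m hm
    rw [map_zero, Finsupp.mem_support_iff] at hm
    exact absurd rfl hm
  | add f g hf hg =>
    intro m hm
    rw [map_add, Finsupp.mem_support_iff, AddMonoidAlgebra.coeff_add, Finsupp.add_apply] at hm
    by_cases h1 : (psi B κ f).coeff m = 0
    · rw [h1, zero_add] at hm
      exact hg m (Finsupp.mem_support_iff.mpr hm)
    · exact hf m (Finsupp.mem_support_iff.mpr h1)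
  | single b c =>
    intro m hm
    rw [psi_single, Finsupp.mem_support_iff, AddMonoidAlgebra.coeff_single] at hm
    by_cases h1 : m = ∑ i, b i • B i
    · rw [h1]
      exact (Submodule.mem_span_range_iff_exists_fun ℤ).mpr ⟨b, rfl⟩
    · rw [Finsupp.single_eq_of_ne h1] at hm
      exact absurd rfl hm

theorem exists_psi (B : Fin n → Fin p → ℤ) (κ : Fin n → ℂˣ) (g : Lau p)
    (h : ∀ m ∈ g.coeff.support, m ∈ Submodule.span ℤ (Set.range B)) : ∃ g', psi B κ g' = g := by
  classical
  have hg : g = ∑ m ∈ g.coeff.support, AddMonoidAlgebra.single m (g.coeff m) := by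
    conv_lhs => rw [← AddMonoidAlgebra.sum_coeff_single g]
    rfl
  have h' : ∀ m ∈ g.coeff.support, ∃ c : Fin n → ℤ, ∑ i, c i • B i = m := fun m hm =>
    (Submodule.mem_span_range_iff_exists_fun ℤ).mp (h m hm)
  choose! s hs using h'
  refine ⟨∑ m ∈ g.coeff.support, AddMonoidAlgebra.single (s m)
    (g.coeff m * ((xm κ (s m) : ℂˣ) : ℂ)⁻¹), ?_⟩
  rw [map_sum]
  conv_rhs => rw [hg]
  refine Finset.sum_congr rfl fun m hm => ?_
  rw [psi_single, hs m hm, mul_assoc, inv_mul_cancel₀ (Units.ne_zero _), mul_one]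

section field

variable {L : Type} [Field L] [Algebra ℂ L]

theorem xm_psi (B : Fin n → Fin p → ℤ) (κ : Fin n → ℂˣ) (σ : Fin p → Lˣ) (x : Fin n → Lˣ)
    (hx : ∀ i, (x i : L) = algebraMap ℂ L (κ i) * (xm σ (B i) : L)) (μ : Fin n → ℤ) :
    (xm x μ : L) = algebraMap ℂ L ((xm κ μ : ℂˣ) : ℂ) * (xm σ (∑ i, μ i • B i) : L) := by
  have h1 : ∀ i, x i = Units.map (algebraMap ℂ L).toMonoidHom (κ i) * xm σ (B i) := by
    intro i
    apply Units.ext
    rw [hx]
    rfl
  have h2 : xm x μ = Units.map (algebraMap ℂ L).toMonoidHom (xm κ μ) *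
      xm σ (∑ i, μ i • B i) := by
    rw [xm_sum]
    unfold xm
    rw [map_prod, ← Finset.prod_mul_distrib]
    refine Finset.prod_congr rfl fun i _ => ?_
    rw [h1 i, mul_zpow, map_zpow]
    congr 1
    exact (xm_smul σ (μ i) (B i)).symm
  rw [h2, Units.val_mul]
  rfl

/-- evaluation and monomial homomorphisms -/
theorem ep_psi (B : Fin n → Fin p → ℤ) (κ : Fin n → ℂˣ) (σ : Fin p → Lˣ) (x : Fin n → Lˣ)
    (hx : ∀ i, (x i : L) = algebraMap ℂ L (κ i) * (xm σ (B i) : L)) (g : Lau n) :
    ep σ (psi B κ g) = ep x g := by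
  induction g using AddMonoidAlgebra.induction_linear with
  | zero => rw [map_zero, map_zero, map_zero]
  | add f g hf hg => rw [map_add, map_add, map_add, hf, hg]
  | single a c =>
    rw [psi_single, ep_single, ep_single, xm_psi B κ σ x hx, Algebra.smul_def, Algebra.smul_def,
      map_mul, mul_assoc]

end field

/-! ### Homogeneous polynomials -/

theorem aeval_hom {R : Type} [CommRing R] [Algebra ℂ R] {f : MvPolynomial (Fin (n + 1)) ℂ} {k : ℕ}
    (hf : f.IsHomogeneous k) (c : R) (u : Fin (n + 1) → R) :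
    aeval (fun i => c * u i) f = c ^ k * aeval u f := by
  rw [aeval_def, aeval_def, eval₂_eq, eval₂_eq, Finset.mul_sum]
  refine Finset.sum_congr rfl fun d hd => ?_
  have h1 := hf (mem_support_iff.mp hd)
  rw [Finsupp.weight_apply] at h1
  simp only [Pi.one_apply, smul_eq_mul, mul_one] at h1
  have h2 : ∏ i ∈ d.support, (c * u i) ^ d i = c ^ k * ∏ i ∈ d.support, u i ^ d i := by
    rw [← h1, Finsupp.sum, ← Finset.prod_pow_eq_pow_sum, ← Finset.prod_mul_distrib]
    exact Finset.prod_congr rfl fun i _ => by rw [mul_pow]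
  rw [h2]
  ring

/-- the parametrization of the orbit in affine coordinates -/
theorem psi_laur (A : Fin (n + 1) → Fin p → ℤ) (c : Fin (n + 1) → ℂˣ)
    {f : MvPolynomial (Fin (n + 1)) ℂ} {k : ℕ} (hf : f.IsHomogeneous k) :
    aeval (fun i => (AddMonoidAlgebra.single (A i) (c i : ℂ) : Lau p)) f =
      AddMonoidAlgebra.single (A 0) (c 0 : ℂ) ^ k *
        psi (fun i : Fin n => A i.succ - A 0) (fun i => c i.succ / c 0) (laur f) := by
  unfold laur
  rw [← AlgHom.comp_apply, comp_aeval, ← aeval_hom hf]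
  congr 2
  funext i
  refine Fin.cases ?_ (fun i => ?_) i
  · rw [Fin.cons_zero, map_one, mul_one]
  · rw [Fin.cons_succ, psi_single, AddMonoidAlgebra.single_mul_single]
    have h1 : ∑ j, (Pi.single i (1 : ℤ) : Fin n → ℤ) j • (A j.succ - A 0) = A i.succ - A 0 := by
      rw [Finset.sum_eq_single i]
      · rw [Pi.single_eq_same, one_smul]
      · intro j _ hj
        rw [Pi.single_eq_of_ne hj, zero_smul]
      · intro h
        exact absurd (Finset.mem_univ i) h
    have h2 : xm (fun i : Fin n => c i.succ / c 0) (Pi.single i 1) = c i.succ / c 0 := by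
      unfold xm
      rw [Finset.prod_eq_single i]
      · rw [Pi.single_eq_same, zpow_one]
      · intro j _ hj
        rw [Pi.single_eq_of_ne hj, zpow_zero]
      · intro h
        exact absurd (Finset.mem_univ i) h
    rw [h1, h2, one_mul, Units.val_div_eq_div_val]
    congr 1
    · abel
    · field_simp

/-- every Laurent polynomial comes from a form, up to a monomial -/
theorem exists_laur (g : Lau n) : ∃ k : ℕ, ∀ a b : ℕ, k ≤ a → k ≤ b →
    ∃ f : MvPolynomial (Fin (n + 1)) ℂ, f.IsHomogeneous (a + n * b) ∧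
      laur f = AddMonoidAlgebra.single (fun _ => (b : ℤ)) 1 * g := by
  induction g using AddMonoidAlgebra.induction_linear with
  | zero =>
    refine ⟨0, fun a b _ _ => ⟨0, MvPolynomial.isHomogeneous_zero _ _ _, ?_⟩⟩
    unfold laur
    rw [map_zero, mul_zero]
  | add f g hf hg =>
    obtain ⟨k1, h1⟩ := hf
    obtain ⟨k2, h2⟩ := hg
    refine ⟨max k1 k2, fun a b ha hb => ?_⟩
    obtain ⟨P1, a1, b1⟩ := h1 a b ((le_max_left _ _).trans ha) ((le_max_left _ _).trans hb)
    obtain ⟨P2, a2, b2⟩ := h2 a b ((le_max_right _ _).trans ha) ((le_max_right _ _).trans hb)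
    refine ⟨P1 + P2, a1.add a2, ?_⟩
    unfold laur at b1 b2 ⊢
    rw [map_add, b1, b2, mul_add]
  | single m x =>
    set k : ℕ := ∑ i, (m i).natAbs with hk
    have hki : ∀ i, (m i).natAbs ≤ k := fun i =>
      Finset.single_le_sum (f := fun i => (m i).natAbs) (fun i _ => Nat.zero_le _)
        (Finset.mem_univ i)
    have hks : |∑ i, m i| ≤ k := by
      refine (Finset.abs_sum_le_sum_abs _ _).trans ?_
      rw [hk]
      push_cast
      exact le_rfl
    refine ⟨k, fun a b ha hb => ?_⟩
    set e0 : ℕ := ((a : ℤ) - ∑ i, m i).toNat with he0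
    set e : Fin n → ℕ := fun i => ((b : ℤ) + m i).toNat with he
    have h0 : (e0 : ℤ) = a - ∑ i, m i := by
      rw [he0, Int.toNat_of_nonneg]
      have := (abs_le.mp hks).2
      omega
    have h1 : ∀ i, (e i : ℤ) = b + m i := by
      intro i
      rw [he]
      simp only
      rw [Int.toNat_of_nonneg]
      have := hki i
      omega
    have e3 : a + n * b = e0 + ∑ i, e i := by
      have : ((a + n * b : ℕ) : ℤ) = ((e0 + ∑ i, e i : ℕ) : ℤ) := by
        push_cast
        rw [Finset.sum_congr rfl (fun i _ => h1 i), h0, Finset.sum_add_distrib]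
        simp
      exact_mod_cast this
    refine ⟨MvPolynomial.C x * (MvPolynomial.X 0 ^ e0 * ∏ i : Fin n, MvPolynomial.X i.succ ^ e i),
      ?_, ?_⟩
    · have h2 : (MvPolynomial.X 0 ^ e0 * ∏ i : Fin n, MvPolynomial.X i.succ ^ e i :
          MvPolynomial (Fin (n + 1)) ℂ).IsHomogeneous (e0 + ∑ i, e i) := by
        refine MvPolynomial.IsHomogeneous.mul ?_ (MvPolynomial.IsHomogeneous.prod _ _ _
          fun i _ => ?_)
        · have := (MvPolynomial.isHomogeneous_X ℂ (0 : Fin (n + 1))).pow e0
          rwa [one_mul] at this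
        · have := (MvPolynomial.isHomogeneous_X ℂ i.succ).pow (e i)
          rwa [one_mul] at this
      rw [e3]
      have := (MvPolynomial.isHomogeneous_C (Fin (n + 1)) x).mul h2
      rwa [zero_add] at this
    · unfold laur
      rw [map_mul, map_mul, map_pow, map_prod, aeval_X, Fin.cons_zero, one_pow, one_mul]
      simp only [map_pow, aeval_X, Fin.cons_succ, AddMonoidAlgebra.single_pow, one_pow]
      rw [AddMonoidAlgebra.single_mul_single, one_mul]
      have h3 : ∀ s : Finset (Fin n), ∏ i ∈ s, (AddMonoidAlgebra.single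
          (e i • (Pi.single i 1 : Fin n → ℤ)) (1 : ℂ) : Lau n) =
          AddMonoidAlgebra.single (∑ i ∈ s, e i • (Pi.single i 1 : Fin n → ℤ)) 1 := by
        classical
        intro s
        induction s using Finset.induction_on with
        | empty => rfl
        | insert i s hi ih =>
          rw [Finset.prod_insert hi, Finset.sum_insert hi, ih, AddMonoidAlgebra.single_mul_single,
            one_mul]
      rw [h3, algHom_C]
      have h4 : ∑ i, e i • (Pi.single i 1 : Fin n → ℤ) = (fun _ => (b : ℤ)) + m := by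
        funext j
        rw [Finset.sum_apply, Finset.sum_eq_single j]
        · rw [Pi.smul_apply, Pi.single_eq_same, nsmul_eq_mul, mul_one, Pi.add_apply, h1]
        · intro i _ hi
          rw [Pi.smul_apply, Pi.single_eq_of_ne (Ne.symm hi), smul_zero]
        · intro h
          exact absurd (Finset.mem_univ j) h
      rw [h4, ← Algebra.smul_def, AddMonoidAlgebra.smul_single, smul_eq_mul, mul_one]

/-- the relations between the monomials are those of the orbit -/
theorem ker_iff {L : Type} [Field L] [Algebra ℂ L] (x : Fin n → Lˣ)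
    (A : Fin (n + 1) → Fin p → ℤ) (c : Fin (n + 1) → ℂˣ)
    (h : ∀ (f : MvPolynomial (Fin (n + 1)) ℂ) (k : ℕ), f.IsHomogeneous k →
      (ep x (laur f) = 0 ↔
        aeval (fun i => (AddMonoidAlgebra.single (A i) (c i : ℂ) : Lau p)) f = 0)) (g : Lau n) :
    ep x g = 0 ↔ psi (fun i : Fin n => A i.succ - A 0) (fun i => c i.succ / c 0) g = 0 := by
  obtain ⟨k, hk⟩ := exists_laur g
  obtain ⟨f, hf, hfg⟩ := hk k k le_rfl le_rfl
  have hu : ∀ (m : Fin p → ℤ) (c : ℂ), c ≠ 0 → (AddMonoidAlgebra.single m c : Lau p) ≠ 0 := by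
    intro m c hc h0
    have h1 := congrArg (fun g : Lau p => g.coeff m) h0
    change (AddMonoidAlgebra.single m c : Lau p).coeff m = 0 at h1
    rw [AddMonoidAlgebra.coeff_single, Finsupp.single_eq_same] at h1
    exact hc h1
  have h1 : ep x g = 0 ↔ ep x (laur f) = 0 := by
    rw [hfg, map_mul, ep_single, one_smul, mul_eq_zero]
    constructor
    · exact Or.inr
    · rintro (h2 | h2)
      · exact absurd h2 (Units.ne_zero _)
      · exact h2
  rw [h1, h f _ hf, psi_laur A c hf, mul_eq_zero, hfg, map_mul, psi_single, mul_eq_zero]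
  constructor
  · rintro (h2 | h2 | h2)
    · exact absurd h2 (pow_ne_zero _ (hu _ _ (c 0).ne_zero))
    · exact absurd h2 (hu _ _ (mul_ne_zero one_ne_zero (Units.ne_zero _)))
    · exact h2
  · intro h2
    exact Or.inr (Or.inr h2)

end Pool.Agent.Y379.KS
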