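import Pool.Agent.Y379.KS.Lp2

/-!
The form of products of monomials and `e`-th powers in the closure of an orbit (task KS4, KS5 of the
project on covers of subvarieties of tori).
-/

set_option autoImplicit false

namespace Pool.Agent.Y379.KS

open MvPolynomial FF Pool.Agent.Y192.OG Pool.Agent.Y192.KC Pool.Agent.W602.GT Pool.Agent.W603.BP

variable {n p : ℕ}

theorem supp_coset (B : Fin n → Fin p → ℤ) (κ : Fin n → ℂˣ) {f : Lau n} {a : Fin p → ℤ} {α : ℂ}
    (hα : α ≠ 0) {T : Lau p} (h : psi B κ f = AddMonoidAlgebra.single a α * T) :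
    ∀ m ∈ T.coeff.support, a + m ∈ Submodule.span ℤ (Set.range B) := by
  intro m hm
  refine psi_supp B κ f (a + m) ?_
  rw [Finsupp.mem_support_iff, h, AddMonoidAlgebra.coeff_single_mul_add]
  exact mul_ne_zero hα (Finsupp.mem_support_iff.mp hm)

theorem exists_supp {T : Lau p} (h : T ≠ 0) : ∃ m, m ∈ T.coeff.support := by
  by_contra hcon
  push Not at hcon
  apply h
  apply AddMonoidAlgebra.coeff_injective
  ext m
  exact Finsupp.notMem_support_iff.mp (hcon m)

/-- the form of products of monomials and `e`-th powers -/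
theorem root_form {L : Type} [Field L] [Algebra ℂ L] (x : Fin n → Lˣ) (B : Fin n → Fin p → ℤ)
    (κ : Fin n → ℂˣ) (hker : ∀ g : Lau n, ep x g = 0 ↔ psi B κ g = 0) (f : Lau n)
    (hf : ep x f ≠ 0) (e : ℕ) (a : Fin p → ℤ) (α : ℂ) (S : Lau p)
    (h : psi B κ f = AddMonoidAlgebra.single a α * S ^ e) :
    ∃ (μ : Fin n → ℤ) (β : ℂ) (S' : Lau n), β ≠ 0 ∧ ep x S' ≠ 0 ∧
      ep x f = algebraMap ℂ L β * (xm x μ : L) * ep x S' ^ e := by
  classical
  have hf' : psi B κ f ≠ 0 := fun h1 => hf ((hker f).mpr h1)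
  have hα : α ≠ 0 := by
    rintro rfl
    apply hf'
    rw [h]
    have h1 : (AddMonoidAlgebra.single a (0 : ℂ) : Lau p) = 0 := by
      apply AddMonoidAlgebra.coeff_injective
      rw [AddMonoidAlgebra.coeff_single, Finsupp.single_zero]
      rfl
    rw [h1, zero_mul]
  have hSe : S ^ e ≠ 0 := by
    intro h1
    rw [h1, mul_zero] at h
    exact hf' h
  obtain ⟨b, S1, hS1, hS1e, hsupp⟩ : ∃ (b : Fin p → ℤ) (S1 : Lau p),
      S ^ e = AddMonoidAlgebra.single (e • b) 1 * S1 ^ e ∧ S1 ≠ 0 ∧
      ∀ m ∈ S1.coeff.support, m ∈ Submodule.span ℤ (Set.range B) := by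
    rcases Nat.eq_zero_or_pos e with rfl | he
    · refine ⟨0, 1, ?_, one_ne_zero, ?_⟩
      · rw [pow_zero, pow_zero, mul_one, zero_smul]
        rfl
      · intro m hm
        rw [Finsupp.mem_support_iff] at hm
        have h1 : (1 : Lau p) = AddMonoidAlgebra.single 0 1 := rfl
        rw [h1, AddMonoidAlgebra.coeff_single] at hm
        by_cases h2 : m = 0
        · rw [h2]
          exact zero_mem _
        · rw [Finsupp.single_eq_of_ne h2] at hm
          exact absurd rfl hm
    · have hS0 : S ≠ 0 := by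
        rintro rfl
        rw [zero_pow he.ne'] at hSe
        exact hSe rfl
      obtain ⟨b, hb⟩ := exists_supp hS0
      have h1 := hom_of_pow (Submodule.span ℤ (Set.range B)) S he (-a) (fun m hm => by
        have h2 := supp_coset B κ hα h m hm
        rwa [sub_neg_eq_add, add_comm])
      refine ⟨b, AddMonoidAlgebra.single (-b) 1 * S, ?_, ?_, ?_⟩
      · rw [mul_pow, AddMonoidAlgebra.single_pow, one_pow, ← mul_assoc,
          AddMonoidAlgebra.single_mul_single, one_mul, smul_neg, add_neg_cancel]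
        change S ^ e = 1 * S ^ e
        rw [one_mul]
      · intro h2
        apply hS0
        have h3 := congrArg (fun g : Lau p => AddMonoidAlgebra.single b (1 : ℂ) * g) h2
        change AddMonoidAlgebra.single b (1 : ℂ) * (AddMonoidAlgebra.single (-b) 1 * S) =
          AddMonoidAlgebra.single b (1 : ℂ) * 0 at h3
        rw [← mul_assoc, AddMonoidAlgebra.single_mul_single, one_mul, add_neg_cancel,
          mul_zero] at h3
        change 1 * S = 0 at h3
        rwa [one_mul] at h3
      · intro m hm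
        have h2 : m = -b + (b + m) := by abel
        rw [h2, Finsupp.mem_support_iff, AddMonoidAlgebra.coeff_single_mul_add, one_mul] at hm
        have h3 := h1 _ (Finsupp.mem_support_iff.mpr hm) b hb
        rwa [add_sub_cancel_left] at h3
  obtain ⟨S', hS'⟩ := exists_psi B κ S1 hsupp
  have hform : psi B κ f = AddMonoidAlgebra.single (a + e • b) α * psi B κ (S' ^ e) := by
    rw [h, hS1, map_pow, hS', ← mul_assoc, AddMonoidAlgebra.single_mul_single, mul_one]
  have hne : psi B κ (S' ^ e) ≠ 0 := by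
    rw [map_pow, hS']
    exact pow_ne_zero _ hS1e
  obtain ⟨m0, hm0⟩ := exists_supp hne
  have hab : a + e • b ∈ Submodule.span ℤ (Set.range B) := by
    have h1 := supp_coset B κ hα hform m0 hm0
    have h2 := psi_supp B κ (S' ^ e) m0 hm0
    have h3 := sub_mem h1 h2
    rwa [add_sub_cancel_right] at h3
  obtain ⟨μ, hμ⟩ := (Submodule.mem_span_range_iff_exists_fun ℤ).mp hab
  refine ⟨μ, α * ((xm κ μ : ℂˣ) : ℂ)⁻¹, S', mul_ne_zero hα (inv_ne_zero (Units.ne_zero _)), ?_, ?_⟩
  · intro h1
    have h2 := (hker S').mp h1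
    rw [hS'] at h2
    exact hS1e h2
  · have h1 : ep x (f - AddMonoidAlgebra.single μ (α * ((xm κ μ : ℂˣ) : ℂ)⁻¹) * S' ^ e) = 0 := by
      rw [hker, map_sub, map_mul, psi_single, hform, hμ, mul_assoc,
        inv_mul_cancel₀ (Units.ne_zero _), mul_one, sub_self]
    rw [map_sub, map_mul, map_pow, ep_single, sub_eq_zero, Algebra.smul_def] at h1
    exact h1

end Pool.Agent.Y379.KS
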