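import Pool.Agent.Y379.KS.Frame

/-!
The function fields of covers of closures of orbits (task KS4, KS5 of the project on covers of
subvarieties of tori).
-/

set_option autoImplicit false

namespace Pool.Agent.Y379.KS

open MvPolynomial FF Pool.Agent.Y192.OG Pool.Agent.Y192.KC Pool.Agent.W602.GT Pool.Agent.W603.BP
open Pool.Agent.Y379.KG (xm_sum xm_smul LL LL_apply)

variable {n p r : ℕ}

theorem cancel (A0 : Fin p → ℤ) (c0 : ℂˣ) (d : ℕ) (Y Z : Lau p)
    (h : Z = AddMonoidAlgebra.single A0 (c0 : ℂ) ^ d * Y) :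
    Y = AddMonoidAlgebra.single (-(d • A0)) (((c0 : ℂ) ^ d)⁻¹) * Z := by
  rw [h, AddMonoidAlgebra.single_pow, ← mul_assoc, AddMonoidAlgebra.single_mul_single,
    neg_add_cancel, inv_mul_cancel₀ (pow_ne_zero _ c0.ne_zero)]
  change Y = 1 * Y
  rw [one_mul]

section field

variable {L : Type} [Field L] [Algebra ℂ L]

theorem xm_mem {δ : ℕ} (σ : Fin δ → Lˣ) (β : Fin δ → ℤ) :
    (xm σ β : L) ∈ IntermediateField.adjoin ℂ (Set.range fun k => (σ k : L)) := by
  unfold xm
  rw [Units.coe_prod]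
  refine prod_mem fun k _ => ?_
  rw [Units.val_zpow_eq_zpow_val]
  have h := IntermediateField.subset_adjoin ℂ (Set.range fun k => (σ k : L)) ⟨k, rfl⟩
  exact zpow_mem h _

theorem ep_mem {δ : ℕ} (σ : Fin δ → Lˣ) (g : Lau δ) :
    ep σ g ∈ IntermediateField.adjoin ℂ (Set.range fun k => (σ k : L)) := by
  induction g using AddMonoidAlgebra.induction_linear with
  | zero => rw [map_zero]; exact zero_mem _
  | add f g hf hg => rw [map_add]; exact add_mem hf hg
  | single a c =>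
    rw [ep_single, Algebra.smul_def]
    exact mul_mem (IntermediateField.algebraMap_mem _ c) (xm_mem σ a)

theorem toric_frame (X : ZCov n r) {m : ℕ} (hm : 0 < m) (he : ∀ j, X.e j ∣ m) (hT : Toric X)
    {t : Fin (n + 1) → L} {w : Fin r → L} (hF : ZField X m L t w) :
    ∃ (δ : ℕ) (σ : Fin δ → Lˣ), IsTranscendenceBasis ℂ (fun k => (σ k : L)) ∧
      IntermediateField.adjoin ℂ (Set.range fun k => (σ k : L)) = ⊤ ∧
      (∀ i, ∃ (β : Fin δ → ℤ) (c : ℂˣ), t i / t 0 = algebraMap ℂ L c * (xm σ β : L)) ∧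
      (∀ j, ∃ W : Lau δ, w j / t 0 ^ X.wt m j = ep σ W) ∧
      ∃ (β : Fin δ → ℤ) (c : ℂˣ), aeval (fun i => t i ^ m) X.G =
        (t 0 ^ m) ^ X.q * (algebraMap ℂ L c * (xm σ β : L)) := by
  classical
  obtain ⟨p, A, c0, hc0, hrel, ⟨aG, αG, hG⟩, hFj⟩ := hT
  set c : Fin (n + 1) → ℂˣ := fun i => Units.mk0 (c0 i) (hc0 i) with hc
  have hcf : (fun i => (AddMonoidAlgebra.single (A i) (c0 i) : Lau p)) =
      fun i => (AddMonoidAlgebra.single (A i) (c i : ℂ) : Lau p) := rfl
  rw [hcf] at hrel hG hFj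
  -- the coordinates are not zero
  have ht : ∀ i, t i ≠ 0 := by
    intro i h0
    have h1 := hF.van (MvPolynomial.X i) 1 (isHomogeneous_X ℂ i)
    rw [aeval_X, h0, zero_pow hm.ne'] at h1
    exact X.hX i (h1.mp rfl)
  set z : Fin n → Lˣ := fun i => Units.mk0 (t i.succ / t 0) (div_ne_zero (ht _) (ht 0)) with hz
  set x : Fin n → Lˣ := fun i => z i ^ m with hxdef
  have hxv : ∀ i, (x i : L) = t i.succ ^ m / t 0 ^ m := by
    intro i
    rw [hxdef]
    change ((z i ^ m : Lˣ) : L) = _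
    rw [Units.val_pow_eq_pow_val, hz]
    change (t i.succ / t 0) ^ m = _
    rw [div_pow]
  have hlaur : ∀ (f : MvPolynomial (Fin (n + 1)) ℂ) (k : ℕ), f.IsHomogeneous k →
      aeval (fun i => t i ^ m) f = (t 0 ^ m) ^ k * ep x (laur f) := by
    intro f k hf
    rw [ep_laur, ← aeval_hom hf]
    congr 2
    funext i
    refine Fin.cases ?_ (fun i => ?_) i
    · rw [Fin.cons_zero, mul_one]
    · rw [Fin.cons_succ, hxv, mul_div_cancel₀ _ (pow_ne_zero _ (ht 0))]
  have hlaur0 : ∀ (f : MvPolynomial (Fin (n + 1)) ℂ) (k : ℕ), f.IsHomogeneous k →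
      (ep x (laur f) = 0 ↔ f ∈ X.I) := by
    intro f k hf
    rw [← hF.van f k hf, hlaur f k hf, mul_eq_zero]
    constructor
    · exact Or.inr
    · rintro (h | h)
      · exact absurd h (pow_ne_zero _ (pow_ne_zero _ (ht 0)))
      · exact h
  have hker := ker_iff x A c (fun f k hf => by rw [hlaur0 f k hf, hrel f k hf])
  -- the functions
  have hy0 : ∀ j, ∃ (μ : Fin n → ℤ) (β : ℂ) (S' : Lau n), β ≠ 0 ∧ ep x S' ≠ 0 ∧
      ep x (laur (X.F j)) = algebraMap ℂ L β * (xm x μ : L) * ep x S' ^ X.e j := by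
    intro j
    obtain ⟨a, S, hS⟩ := hFj j
    rw [psi_laur A c (X.hF j)] at hS
    have h1 := cancel _ _ _ _ _ hS.symm
    rw [← mul_assoc, AddMonoidAlgebra.single_mul_single] at h1
    refine root_form x _ _ hker _ ?_ _ _ _ S h1
    rw [Ne, hlaur0 _ _ (X.hF j)]
    exact X.hFI j
  choose μ β S hβ hS hFS using hy0
  have hwp : ∀ j, (w j / t 0 ^ X.wt m j) ^ X.e j = ep x (laur (X.F j)) := by
    intro j
    have h5 : X.wt m j * X.e j = m * X.d j := by
      unfold Cov.wt
      exact Nat.div_mul_cancel ((he j).mul_right _)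
    rw [div_pow, hF.eqn, ← pow_mul, h5, hlaur _ _ (X.hF j), ← pow_mul, mul_comm, mul_div_assoc,
      div_self (pow_ne_zero _ (ht 0)), mul_one]
  have hyp : ∀ j, (w j / t 0 ^ X.wt m j / ep x (S j)) ^ X.e j =
      algebraMap ℂ L (β j) * (xm x (μ j) : L) := by
    intro j
    rw [div_pow, hwp, hFS, mul_div_assoc, div_self (pow_ne_zero _ (hS j)), mul_one]
  have hyne : ∀ j, w j / t 0 ^ X.wt m j / ep x (S j) ≠ 0 := by
    intro j h0
    have h1 := hyp j
    rw [h0, zero_pow (X.he j).ne'] at h1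
    exact mul_ne_zero ((map_ne_zero _).mpr (hβ j)) (Units.ne_zero _) h1.symm
  set y : Fin r → Lˣ := fun j => Units.mk0 _ (hyne j) with hy
  have hyu : ∀ j, y j ^ X.e j = cu L (Units.mk0 (β j) (hβ j)) * xm x (μ j) := by
    intro j
    apply Units.ext
    rw [Units.val_pow_eq_pow_val, Units.val_mul]
    exact hyp j
  -- the basis
  obtain ⟨δ, σ, h1, h2, h3⟩ := exists_gens (Sum.elim z y)
  choose bt ct hbt using h1
  have hσm : ∀ k, ∃ (l : Fin n → ℤ) (c : ℂˣ), σ k ^ m = cu L c * xm x l := by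
    intro k
    have h4 : ∀ v ∈ Submodule.span ℤ (Set.range fun i => cls (Sum.elim z y i)),
        (m : ℤ) • v ∈ Submodule.span ℤ (Set.range fun i => cls (x i)) := by
      intro v hv
      induction hv using Submodule.span_induction with
      | mem v hv =>
        obtain ⟨i, rfl⟩ := hv
        rcases i with i | j
        · change (m : ℤ) • cls (z i) ∈ _
          rw [← cls_zpow, zpow_natCast]
          exact Submodule.subset_span ⟨i, rfl⟩
        · change (m : ℤ) • cls (y j) ∈ _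
          obtain ⟨q, hq⟩ := he j
          have h5 : y j ^ m = (cu L (Units.mk0 (β j) (hβ j)) * xm x (μ j)) ^ q := by
            rw [← hyu, ← pow_mul, ← hq]
          rw [← cls_zpow, zpow_natCast, h5, ← zpow_natCast, cls_zpow, cls_mul,
            (cls_eq_zero _).mpr ⟨_, rfl⟩, zero_add, cls_xm]
          refine Submodule.smul_mem _ _ (Submodule.sum_mem _ fun i _ => Submodule.smul_mem _ _ ?_)
          exact Submodule.subset_span ⟨i, rfl⟩
      | zero => rw [smul_zero]; exact zero_mem _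
      | add a b _ _ ha hb => rw [smul_add]; exact add_mem ha hb
      | smul a b _ hb => rw [smul_comm]; exact Submodule.smul_mem _ _ hb
    obtain ⟨l, hl⟩ := (Submodule.mem_span_range_iff_exists_fun ℤ).mp (h4 _ (h2 k))
    have h5 : cls (σ k ^ m * (xm x l)⁻¹) = 0 := by
      rw [cls_mul, ← zpow_neg_one, cls_zpow, cls_xm, neg_one_smul, ← sub_eq_add_neg, hl,
        ← zpow_natCast, cls_zpow, sub_self]
    obtain ⟨c, hc⟩ := (cls_eq_zero _).mp h5
    exact ⟨l, c, by rw [← hc, inv_mul_cancel_right]⟩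
  have hind := indep_pow x _ _ hker σ hm hσm h3
  -- the generators in terms of the basis
  have hz1 : ∀ i, t i.succ / t 0 = algebraMap ℂ L (ct (Sum.inl i)) * (xm σ (bt (Sum.inl i)) : L) := by
    intro i
    have h4 := congrArg (Units.val) (hbt (Sum.inl i))
    rw [Units.val_mul] at h4
    exact h4
  have hx1 : ∀ i, (x i : L) = algebraMap ℂ L ((ct (Sum.inl i) ^ m : ℂˣ) : ℂ) *
      (xm σ ((m : ℤ) • bt (Sum.inl i)) : L) := by
    intro i
    have e1 : (xm σ ((m : ℤ) • bt (Sum.inl i)) : L) = (xm σ (bt (Sum.inl i)) : L) ^ m := by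
      rw [xm_smul, zpow_natCast, Units.val_pow_eq_pow_val]
    have e2 : ((ct (Sum.inl i) ^ m : ℂˣ) : ℂ) = (ct (Sum.inl i) : ℂ) ^ m :=
      Units.val_pow_eq_pow_val _ _
    rw [e1, e2, map_pow, ← mul_pow, ← hz1 i, div_pow, hxv]
  have hw1 : ∀ j, w j / t 0 ^ X.wt m j = ep σ (AddMonoidAlgebra.single (bt (Sum.inr j))
      ((ct (Sum.inr j) : ℂˣ) : ℂ) * psi (fun i => (m : ℤ) • bt (Sum.inl i))
        (fun i => ct (Sum.inl i) ^ m) (S j)) := by
    intro j
    have h4 := congrArg (Units.val) (hbt (Sum.inr j))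
    rw [Units.val_mul] at h4
    change w j / t 0 ^ X.wt m j / ep x (S j) = algebraMap ℂ L _ * _ at h4
    rw [map_mul, ep_single, Algebra.smul_def, ep_psi _ _ σ x hx1, ← h4, div_mul_cancel₀ _ (hS j)]
  have htop : IntermediateField.adjoin ℂ (Set.range fun k => (σ k : L)) = ⊤ := by
    rw [eq_top_iff, ← hF.gen, IntermediateField.adjoin_le_iff]
    rintro v (⟨i, rfl⟩ | ⟨j, rfl⟩)
    · refine Fin.cases ?_ (fun i => ?_) i
      · change t 0 / t 0 ∈ _
        rw [div_self (ht 0)]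
        exact one_mem _
      · change t i.succ / t 0 ∈ _
        rw [hz1 i]
        exact mul_mem (IntermediateField.algebraMap_mem _ _) (xm_mem σ _)
    · change w j / t 0 ^ X.wt m j ∈ _
      rw [hw1 j]
      exact ep_mem σ _
  have hbasis : IsTranscendenceBasis ℂ (fun k => (σ k : L)) := by
    have h4 : Algebra.IsAlgebraic
        (IntermediateField.adjoin ℂ (Set.range fun k => (σ k : L))) L := by
      rw [htop]
      infer_instance
    have h5 := alg_adjoin h4
    exact Algebra.IsAlgebraic.isTranscendenceBasis_of_le_trdeg_of_finite ℂ _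
      hind.cardinalMk_le_trdeg
  refine ⟨δ, σ, hbasis, htop, fun i => ?_, fun j => ⟨_, hw1 j⟩, ?_⟩
  · refine Fin.cases ?_ (fun i => ?_) i
    · refine ⟨0, 1, ?_⟩
      rw [xm_zero, div_self (ht 0), Units.val_one, Units.val_one, map_one, mul_one]
    · exact ⟨_, _, hz1 i⟩
  · rw [psi_laur A c X.hG] at hG
    have h4 := cancel _ _ _ _ _ hG.symm
    rw [AddMonoidAlgebra.single_mul_single] at h4
    have h5 : ep x (laur X.G) ≠ 0 := by
      rw [Ne, hlaur0 _ _ X.hG]
      exact X.hGI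
    obtain ⟨μG, βG, SG, g1, g2, g3⟩ := root_form x _ _ hker _ h5 0 _ _ 1 (by
      rw [h4, pow_zero, mul_one])
    rw [pow_zero, mul_one, xm_psi _ _ σ x hx1, ← mul_assoc, ← map_mul] at g3
    have g4 : βG * ((xm (fun i => ct (Sum.inl i) ^ m) μG : ℂˣ) : ℂ) ≠ 0 :=
      mul_ne_zero g1 (Units.ne_zero _)
    exact ⟨_, Units.mk0 _ g4, by rw [hlaur _ _ X.hG, g3]; rfl⟩

end field

end Pool.Agent.Y379.KS
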